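import Pool.Agent.helper94.FJ.PSX

/-!
# Project fj (MP_ad8ced_nt), row PCE: from windows to cells
-/

set_option autoImplicit false

namespace Pool.Agent.FJ

open Finset ArithmeticFunction MeasureTheory

private lemma PCE_exp (ρ : ℝ) (h0 : 0 ≤ ρ) (h1 : ρ ≤ 1) : Real.exp ρ - Real.exp (-ρ) ≤ 3 * ρ := by
  have h2 := Real.abs_exp_sub_one_sub_id_le (x := ρ) (by rw [abs_of_nonneg h0]; exact h1)
  have h3 := (abs_le.1 h2).2
  have h4 := Real.add_one_le_exp (-ρ)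
  nlinarith

private lemma PCE_card (M : ℕ) (x a ρ : ℝ) (ha : Real.exp a ≤ 2 * x) (h0 : 0 ≤ ρ) (h1 : ρ ≤ 1) :
    (((Ioc 0 M).filter (fun m : ℕ => |Real.log (m : ℝ) - a| ≤ ρ)).card : ℝ) ≤ 6 * x * ρ + 1 := by
  have hsub : (Ioc 0 M).filter (fun m : ℕ => |Real.log (m : ℝ) - a| ≤ ρ) ⊆ Icc ⌈Real.exp (a - ρ)⌉₊ ⌊Real.exp (a + ρ)⌋₊ := by
    intro m hm
    simp only [mem_filter, mem_Ioc] at hm
    obtain ⟨⟨hm0, -⟩, hm1⟩ := hm
    have hmpos : (0 : ℝ) < m := by exact_mod_cast hm0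
    obtain ⟨h2, h3⟩ := abs_le.1 hm1
    rw [mem_Icc]
    constructor
    · apply Nat.ceil_le.2
      rw [← Real.le_log_iff_exp_le hmpos]
      linarith
    · apply Nat.le_floor
      rw [← Real.log_le_iff_le_exp hmpos]
      linarith
  have hc := Finset.card_le_card hsub
  rw [Nat.card_Icc] at hc
  have hf : ((⌊Real.exp (a + ρ)⌋₊ : ℕ) : ℝ) ≤ Real.exp (a + ρ) := Nat.floor_le (Real.exp_pos _).le
  have hg : Real.exp (a - ρ) ≤ ((⌈Real.exp (a - ρ)⌉₊ : ℕ) : ℝ) := Nat.le_ceil _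
  have hea : 0 < Real.exp a := Real.exp_pos a
  have h5 : Real.exp (a + ρ) - Real.exp (a - ρ) ≤ 6 * x * ρ := by
    have e1 : Real.exp (a + ρ) - Real.exp (a - ρ) = Real.exp a * (Real.exp ρ - Real.exp (-ρ)) := by
      rw [mul_sub, ← Real.exp_add, ← Real.exp_add, ← sub_eq_add_neg]
    rw [e1]
    calc Real.exp a * (Real.exp ρ - Real.exp (-ρ)) ≤ Real.exp a * (3 * ρ) :=
          mul_le_mul_of_nonneg_left (PCE_exp ρ h0 h1) hea.le
      _ ≤ (2 * x) * (3 * ρ) := mul_le_mul_of_nonneg_right ha (by linarith)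
      _ = 6 * x * ρ := by ring
  rcases le_total ⌈Real.exp (a - ρ)⌉₊ (⌊Real.exp (a + ρ)⌋₊ + 1) with hle | hle
  · have h6 : ((⌊Real.exp (a + ρ)⌋₊ + 1 - ⌈Real.exp (a - ρ)⌉₊ : ℕ) : ℝ) =
        (⌊Real.exp (a + ρ)⌋₊ : ℝ) + 1 - (⌈Real.exp (a - ρ)⌉₊ : ℝ) := by
      rw [Nat.cast_sub hle]
      push_cast
      ring
    have h7 : (((Ioc 0 M).filter (fun m : ℕ => |Real.log (m : ℝ) - a| ≤ ρ)).card : ℝ) ≤
        ((⌊Real.exp (a + ρ)⌋₊ + 1 - ⌈Real.exp (a - ρ)⌉₊ : ℕ) : ℝ) := by exact_mod_cast hc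
    rw [h6] at h7
    linarith
  · have h8 : ((Ioc 0 M).filter (fun m : ℕ => |Real.log (m : ℝ) - a| ≤ ρ)).card = 0 := by omega
    rw [h8]
    have h9 : 0 ≤ x := by linarith
    push_cast
    positivity

private lemma PCE_pt (a δ v y ρ : ℝ) (hv : |v - (a + δ / 2)| ≤ ρ) :
    |(if a < y ∧ y ≤ a + δ then (1 : ℝ) else 0) - bxw δ (y - v)| ≤
      (if |y - a| ≤ ρ then (1 : ℝ) else 0) + (if |y - (a + δ)| ≤ ρ then (1 : ℝ) else 0) := by
  obtain ⟨h1, h2⟩ := abs_le.1 hv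
  unfold bxw
  have hn1 : (0 : ℝ) ≤ (if |y - a| ≤ ρ then (1 : ℝ) else 0) := by split_ifs <;> norm_num
  have hn2 : (0 : ℝ) ≤ (if |y - (a + δ)| ≤ ρ then (1 : ℝ) else 0) := by split_ifs <;> norm_num
  by_cases hA : a < y ∧ y ≤ a + δ
  · rw [if_pos hA]
    by_cases hB : |y - v| ≤ δ / 2
    · rw [if_pos hB, sub_self, abs_zero]
      linarith
    · rw [if_neg hB, sub_zero, abs_one]
      rw [abs_le, not_and_or] at hB
      rcases hB with hB | hB
      · push Not at hB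
        have : |y - a| ≤ ρ := abs_le.2 ⟨by linarith [hA.1], by linarith⟩
        rw [if_pos this]
        linarith
      · push Not at hB
        have : |y - (a + δ)| ≤ ρ := abs_le.2 ⟨by linarith, by linarith [hA.2]⟩
        rw [if_pos this]
        linarith
  · rw [if_neg hA]
    by_cases hB : |y - v| ≤ δ / 2
    · rw [if_pos hB, zero_sub, abs_neg, abs_one]
      obtain ⟨hB1, hB2⟩ := abs_le.1 hB
      rw [not_and_or] at hA
      rcases hA with hA | hA
      · push Not at hA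
        have : |y - a| ≤ ρ := abs_le.2 ⟨by linarith, by linarith⟩
        rw [if_pos this]
        linarith
      · push Not at hA
        have : |y - (a + δ)| ≤ ρ := abs_le.2 ⟨by linarith, by linarith⟩
        rw [if_pos this]
        linarith
    · rw [if_neg hB, sub_self, abs_zero]
      linarith

private lemma PCE_diff (M : ℕ) (h : ℕ → ℂ) (H x a δ v ρ : ℝ) (hH : 0 ≤ H) (hh : ∀ m ∈ Ioc 0 M, ‖h m‖ ≤ H) (hδ : 0 ≤ δ)
    (hv : |v - (a + δ / 2)| ≤ ρ) (hρ0 : 0 ≤ ρ) (hρ1 : ρ ≤ 1) (ha : Real.exp (a + δ) ≤ 2 * x) :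
    ‖∑ m ∈ Ioc 0 M, h m * (((if a < Real.log (m : ℝ) ∧ Real.log (m : ℝ) ≤ a + δ then (1 : ℝ) else 0 : ℝ) : ℝ) : ℂ) -
      ∑ m ∈ Ioc 0 M, h m * ((bxw δ (Real.log (m : ℝ) - v) : ℝ) : ℂ)‖ ≤ H * (2 * (6 * x * ρ + 1)) := by
  have ha' : Real.exp a ≤ 2 * x := (Real.exp_le_exp.2 (by linarith)).trans ha
  rw [← Finset.sum_sub_distrib]
  refine (norm_sum_le _ _).trans ?_
  have h1 : ∀ m ∈ Ioc 0 M, ‖h m * (((if a < Real.log (m : ℝ) ∧ Real.log (m : ℝ) ≤ a + δ then (1 : ℝ) else 0 : ℝ) : ℝ) : ℂ) -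
      h m * ((bxw δ (Real.log (m : ℝ) - v) : ℝ) : ℂ)‖ ≤
      H * ((if |Real.log (m : ℝ) - a| ≤ ρ then (1 : ℝ) else 0) + (if |Real.log (m : ℝ) - (a + δ)| ≤ ρ then (1 : ℝ) else 0)) := by
    intro m hm
    rw [← mul_sub, norm_mul, ← Complex.ofReal_sub, Complex.norm_real, Real.norm_eq_abs]
    exact mul_le_mul (hh m hm) (PCE_pt a δ v _ ρ hv) (abs_nonneg _) hH
  refine (Finset.sum_le_sum h1).trans ?_
  rw [← Finset.mul_sum, Finset.sum_add_distrib, Finset.sum_boole, Finset.sum_boole]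
  apply mul_le_mul_of_nonneg_left _ hH
  have c1 := PCE_card M x a ρ ha' hρ0 hρ1
  have c2 := PCE_card M x (a + δ) ρ ha hρ0 hρ1
  linarith

private lemma PCE_meas (δ : ℝ) : Measurable (bxw δ) := by
  unfold bxw
  exact Measurable.ite (measurableSet_le (by fun_prop) measurable_const) measurable_const measurable_const

private lemma PCE_int (M : ℕ) (h : ℕ → ℂ) (δ a b : ℝ) :
    IntervalIntegrable (fun v : ℝ => ‖∑ m ∈ Ioc 0 M, h m * ((bxw δ (Real.log (m : ℝ) - v) : ℝ) : ℂ)‖ ^ 2) volume a b := by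
  have hm : Measurable (fun v : ℝ => ‖∑ m ∈ Ioc 0 M, h m * ((bxw δ (Real.log (m : ℝ) - v) : ℝ) : ℂ)‖ ^ 2) := by
    apply Measurable.pow_const
    apply Measurable.norm
    apply Finset.measurable_fun_sum
    intro m _
    apply Measurable.const_mul
    apply Complex.measurable_ofReal.comp
    exact (PCE_meas δ).comp (measurable_const.sub measurable_id)
  have hb : ∀ v : ℝ, ‖‖∑ m ∈ Ioc 0 M, h m * ((bxw δ (Real.log (m : ℝ) - v) : ℝ) : ℂ)‖ ^ 2‖ ≤ (∑ m ∈ Ioc 0 M, ‖h m‖) ^ 2 := by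
    intro v
    rw [norm_pow, norm_norm]
    apply pow_le_pow_left₀ (norm_nonneg _)
    refine (norm_sum_le _ _).trans (Finset.sum_le_sum fun m _ => ?_)
    rw [norm_mul, Complex.norm_real]
    have : ‖bxw δ (Real.log (m : ℝ) - v)‖ ≤ 1 := by
      unfold bxw
      split_ifs <;> norm_num
    calc ‖h m‖ * ‖bxw δ (Real.log (m : ℝ) - v)‖ ≤ ‖h m‖ * 1 := mul_le_mul_of_nonneg_left this (norm_nonneg _)
      _ = ‖h m‖ := mul_one _
  constructor
  · exact Measure.integrableOn_of_bounded (M := (∑ m ∈ Ioc 0 M, ‖h m‖) ^ 2) (by simp) hm.aestronglyMeasurable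
      (Filter.Eventually.of_forall hb)
  · exact Measure.integrableOn_of_bounded (M := (∑ m ∈ Ioc 0 M, ‖h m‖) ^ 2) (by simp) hm.aestronglyMeasurable
      (Filter.Eventually.of_forall hb)

/-- the cell sum with the indicator of the logarithms -/
private lemma PCE_cell (x K i M : ℕ) (hx : 1 ≤ x) (hi : i < K) (hM : 2 * x ≤ M) (h : ℕ → ℂ) :
    ∑ m ∈ Ioc (gp x K i) (gp x K (i + 1)), h m = ∑ m ∈ Ioc 0 M, h m *
      (((if Real.log x + i * (Real.log 2 / K) < Real.log (m : ℝ) ∧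
        Real.log (m : ℝ) ≤ Real.log x + i * (Real.log 2 / K) + Real.log 2 / K then (1 : ℝ) else 0 : ℝ) : ℝ) : ℂ) := by
  have hx0 : (0 : ℝ) < x := by exact_mod_cast hx
  have hgp : ∀ j m : ℕ, 1 ≤ m → (m ≤ gp x K j ↔ Real.log (m : ℝ) ≤ Real.log x + j * (Real.log 2 / K)) := by
    intro j m hm
    have hm0 : (0 : ℝ) < m := by exact_mod_cast hm
    unfold gp
    rw [Nat.le_floor_iff (by positivity), ← Real.log_le_log_iff hm0 (by positivity), Real.log_mul hx0.ne' (by positivity),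
      Real.log_rpow (by norm_num)]
    have : (j : ℝ) / K * Real.log 2 = j * (Real.log 2 / K) := by ring
    rw [this]
  have hsub : Ioc (gp x K i) (gp x K (i + 1)) = (Ioc 0 M).filter (fun m : ℕ => Real.log x + i * (Real.log 2 / K) < Real.log (m : ℝ) ∧
        Real.log (m : ℝ) ≤ Real.log x + i * (Real.log 2 / K) + Real.log 2 / K) := by
    ext m
    simp only [mem_Ioc, mem_filter]
    have hle := PSX_gp_le x K (i + 1) (by omega)
    have e1 : Real.log x + ((i + 1 : ℕ) : ℝ) * (Real.log 2 / K) = Real.log x + i * (Real.log 2 / K) + Real.log 2 / K := by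
      push_cast
      ring
    constructor
    · rintro ⟨h1, h2⟩
      have hm : 1 ≤ m := by omega
      refine ⟨⟨by omega, by omega⟩, ?_, ?_⟩
      · by_contra hc
        push Not at hc
        have := (hgp i m hm).2 hc
        omega
      · rw [← e1]
        exact (hgp (i + 1) m hm).1 h2
    · rintro ⟨⟨h0, h1⟩, h2, h3⟩
      have hm : 1 ≤ m := by omega
      constructor
      · by_contra hc
        push Not at hc
        have := (hgp i m hm).1 hc
        linarith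
      · rw [hgp (i + 1) m hm, e1]
        exact h3
  rw [hsub, Finset.sum_filter]
  refine Finset.sum_congr rfl fun m _ => ?_
  split_ifs <;> simp

/-- one cell: mean value over the small shifts -/
private lemma PCE_one (F : ℝ → ℝ) (c D v ρ : ℝ) (hρ : 0 < ρ) (hF : ∀ a b : ℝ, IntervalIntegrable F volume a b)
    (h : ∀ w, |w - v| ≤ ρ → c ≤ 2 * F w + 2 * D ^ 2) :
    c ≤ 1 / ρ * (∫ w in (v - ρ)..(v + ρ), F w) + 2 * D ^ 2 := by
  have h1 : ∫ _w in (v - ρ)..(v + ρ), c ≤ ∫ w in (v - ρ)..(v + ρ), (2 * F w + 2 * D ^ 2) := by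
    apply intervalIntegral.integral_mono_on (by linarith) intervalIntegrable_const
      (((hF _ _).const_mul 2).add intervalIntegrable_const)
    intro w hw
    apply h
    rw [abs_le]
    exact ⟨by linarith [hw.1], by linarith [hw.2]⟩
  rw [intervalIntegral.integral_const, intervalIntegral.integral_add ((hF _ _).const_mul 2) intervalIntegrable_const,
    intervalIntegral.integral_const_mul, intervalIntegral.integral_const, smul_eq_mul, smul_eq_mul] at h1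
  have h2 : 2 * ρ * c ≤ 2 * ρ * (1 / ρ * (∫ w in (v - ρ)..(v + ρ), F w) + 2 * D ^ 2) := by
    have e : 2 * ρ * (1 / ρ * (∫ w in (v - ρ)..(v + ρ), F w) + 2 * D ^ 2) =
        2 * (∫ w in (v - ρ)..(v + ρ), F w) + 2 * ρ * (2 * D ^ 2) := by
      field_simp
    rw [e]
    have e2 : v + ρ - (v - ρ) = 2 * ρ := by ring
    rw [e2] at h1
    exact h1
  exact le_of_mul_le_mul_left h2 (by linarith)

private lemma PCE_num (A : ℕ) (K L lx x N3 δ ρ I : ℝ) (hK : 1 ≤ K) (hx : 0 ≤ x) (hN3 : 0 ≤ N3) (hN : N3 ≤ 2 * x) (hδ0 : 0 < δ)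
    (hδ : δ * K ≤ 1) (hL : 15000 * 3 ^ A ≤ L) (hlx0 : 0 < lx) (hlx : lx ≤ 3 * L) (hρ : ρ = δ / L ^ (A + 2))
    (hI : I ≤ δ ^ 2 * N3 ^ 2 / L ^ (2 * A + 3)) :
    1 / ρ * I + K * (2 * (84 * x * ρ * L) ^ 2) ≤ x ^ 2 / (K * lx ^ A) := by
  have h3A : (1 : ℝ) ≤ 3 ^ A := one_le_pow₀ (by norm_num)
  have hL1 : 1 ≤ L := by linarith
  have hL0 : 0 < L := by linarith
  have hK0 : 0 < K := by linarith
  have hρ0 : 0 < ρ := by rw [hρ]; positivity
  have hδK : δ ≤ 1 / K := by rw [le_div_iff₀ hK0]; exact hδ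
  have t1 : 1 / ρ * I ≤ 4 * x ^ 2 / (K * L ^ (A + 1)) := by
    calc 1 / ρ * I ≤ 1 / ρ * (δ ^ 2 * N3 ^ 2 / L ^ (2 * A + 3)) := mul_le_mul_of_nonneg_left hI (by positivity)
      _ = δ * N3 ^ 2 / L ^ (A + 1) := by
          rw [hρ, show 2 * A + 3 = (A + 2) + (A + 1) by ring, pow_add]
          field_simp
          ring
      _ ≤ (1 / K) * (2 * x) ^ 2 / L ^ (A + 1) := by
          apply div_le_div_of_nonneg_right _ (by positivity)
          apply mul_le_mul hδK (pow_le_pow_left₀ hN3 hN 2) (by positivity) (by positivity)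
      _ = 4 * x ^ 2 / (K * L ^ (A + 1)) := by
          field_simp
          ring
  have t2 : K * (2 * (84 * x * ρ * L) ^ 2) ≤ 14112 * x ^ 2 / (K * L ^ (A + 1)) := by
    have e1 : ρ * L = δ / L ^ (A + 1) := by
      rw [hρ, show A + 2 = (A + 1) + 1 by ring, pow_succ L (A + 1)]
      field_simp
    have e2 : ρ * L ≤ 1 / (K * L ^ (A + 1)) := by
      rw [e1, div_le_div_iff₀ (by positivity) (by positivity)]
      calc δ * (K * L ^ (A + 1)) = (δ * K) * L ^ (A + 1) := by ring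
        _ ≤ 1 * L ^ (A + 1) := mul_le_mul_of_nonneg_right hδ (by positivity)
    have e3 : (ρ * L) ^ 2 ≤ (1 / (K * L ^ (A + 1))) ^ 2 := pow_le_pow_left₀ (by positivity) e2 2
    calc K * (2 * (84 * x * ρ * L) ^ 2) = 14112 * K * x ^ 2 * (ρ * L) ^ 2 := by ring
      _ ≤ 14112 * K * x ^ 2 * (1 / (K * L ^ (A + 1))) ^ 2 := mul_le_mul_of_nonneg_left e3 (by positivity)
      _ = 14112 * x ^ 2 / (K * L ^ (A + 1)) * (1 / L ^ (A + 1)) := by
          field_simp
      _ ≤ 14112 * x ^ 2 / (K * L ^ (A + 1)) * 1 := by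
          apply mul_le_mul_of_nonneg_left _ (by positivity)
          rw [div_le_one (by positivity)]
          exact one_le_pow₀ hL1
      _ = _ := mul_one _
  have t3 : 4 * x ^ 2 / (K * L ^ (A + 1)) + 14112 * x ^ 2 / (K * L ^ (A + 1)) ≤ x ^ 2 / (K * lx ^ A) := by
    rw [← add_div, div_le_div_iff₀ (by positivity) (by positivity)]
    have e4 : lx ^ A ≤ 3 ^ A * L ^ A := by
      rw [← mul_pow]
      exact pow_le_pow_left₀ hlx0.le hlx A
    calc (4 * x ^ 2 + 14112 * x ^ 2) * (K * lx ^ A) = 14116 * x ^ 2 * K * lx ^ A := by ring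
      _ ≤ 14116 * x ^ 2 * K * (3 ^ A * L ^ A) := mul_le_mul_of_nonneg_left e4 (by positivity)
      _ = (14116 * 3 ^ A) * (x ^ 2 * K * L ^ A) := by ring
      _ ≤ L * (x ^ 2 * K * L ^ A) := by
          apply mul_le_mul_of_nonneg_right _ (by positivity)
          linarith
      _ = x ^ 2 * (K * L ^ (A + 1)) := by ring
  linarith

private lemma PCE_ev (η : ℝ) (hη : 0 < η) (c : ℕ) (R : ℝ) : ∃ N₁ : ℕ, ∀ N : ℕ, N₁ ≤ N → R ≤ Real.log N ∧ 2 * Real.log N ^ c ≤ N ∧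
    2 ≤ (N : ℝ) ^ η := by
  have h1 := (Real.tendsto_log_atTop.comp tendsto_natCast_atTop_atTop).eventually_ge_atTop R
  have h2 := ((Real.isLittleO_pow_log_id_atTop (n := c)).bound (show (0 : ℝ) < 1 / 2 by norm_num))
  have h2' := (tendsto_natCast_atTop_atTop (R := ℝ)).eventually h2
  have h3 := ((tendsto_rpow_atTop hη).comp (tendsto_natCast_atTop_atTop (R := ℝ))).eventually_ge_atTop 2
  obtain ⟨N₁, h⟩ := Filter.eventually_atTop.1 (h1.and (h2'.and (h3.and (Filter.eventually_ge_atTop 1))))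
  refine ⟨N₁, fun N hN => ?_⟩
  obtain ⟨g1, g2, g3, g4⟩ := h N hN
  refine ⟨g1, ?_, g3⟩
  simp only [id_eq, norm_pow, Real.norm_eq_abs] at g2
  have hN1 : (1 : ℝ) ≤ N := by exact_mod_cast g4
  have hl : 0 ≤ Real.log N := Real.log_nonneg hN1
  rw [abs_of_nonneg hl, abs_of_nonneg (by linarith : (0 : ℝ) ≤ N)] at g2
  linarith

/-- the size of `δ` -/
private lemma PCE_dl (η ε : ℝ) (hη : 0 < η) (hε : 8 * ε ≤ 2 * η) (x N K : ℕ) (hN : 3 ≤ N)
    (hKx : (K : ℝ) ≤ (x : ℝ) ^ (2 / 3 - η)) (hK2 : 1 < (K : ℝ)) (hx : x ≤ N ^ 3) (hx1 : 1 ≤ x) (h2 : 2 ≤ (N : ℝ) ^ η) :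
    (N : ℝ) ^ (-2 + 8 * ε) ≤ Real.log 2 / K := by
  have hN0 : (0 : ℝ) < N := by exact_mod_cast (by omega : 0 < N)
  have hN1 : (1 : ℝ) ≤ N := by exact_mod_cast (by omega : 1 ≤ N)
  have hx1' : (1 : ℝ) ≤ x := by exact_mod_cast hx1
  have hK0 : (0 : ℝ) < K := by linarith
  have hη2 : η < 2 / 3 := by
    by_contra hc
    push Not at hc
    have : (x : ℝ) ^ (2 / 3 - η) ≤ 1 := Real.rpow_le_one_of_one_le_of_nonpos hx1' (by linarith)
    linarith
  have h3 : (K : ℝ) ≤ (N : ℝ) ^ (2 - 3 * η) := by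
    calc (K : ℝ) ≤ (x : ℝ) ^ (2 / 3 - η) := hKx
      _ ≤ ((N : ℝ) ^ 3) ^ (2 / 3 - η) := by
          apply Real.rpow_le_rpow (by linarith) (by exact_mod_cast hx) (by linarith)
      _ = (N : ℝ) ^ (2 - 3 * η) := by
          rw [← Real.rpow_natCast, ← Real.rpow_mul hN0.le]
          congr 1
          push_cast
          ring
  rw [le_div_iff₀ hK0]
  calc (N : ℝ) ^ (-2 + 8 * ε) * K ≤ (N : ℝ) ^ (-2 + 2 * η) * (N : ℝ) ^ (2 - 3 * η) := by
        apply mul_le_mul _ h3 hK0.le (by positivity)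
        apply Real.rpow_le_rpow_of_exponent_le hN1
        linarith
    _ = (N : ℝ) ^ (-η) := by
        rw [← Real.rpow_add hN0]
        congr 1
        ring
    _ = 1 / (N : ℝ) ^ η := by rw [Real.rpow_neg hN0.le, one_div]
    _ ≤ 1 / 2 := by
        apply one_div_le_one_div_of_le (by norm_num) h2
    _ ≤ Real.log 2 := by linarith [Real.log_two_gt_d9]

private lemma PCE_hL (N q m : ℕ) (hN : 1 ≤ N) (hLL : 2 ≤ Real.log N) (hq : 1 ≤ q) (ψ : DirichletCharacter ℂ q) (hm : m ∈ Ioc 0 (64 * N ^ 3)) :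
    ‖hL q ψ m‖ ≤ 6 * Real.log N := by
  have : NeZero q := ⟨by omega⟩
  rw [mem_Ioc] at hm
  have hm0 : (0 : ℝ) < m := by exact_mod_cast hm.1
  have hN0 : (0 : ℝ) < N := by exact_mod_cast hN
  unfold Pool.Agent.FJ.hL
  rw [norm_mul]
  have h1 : ‖ψ (m : ZMod q)‖ ≤ 1 := DirichletCharacter.norm_le_one ψ _
  have h2 : ‖(vonMangoldt m : ℂ) - (if q = 1 then 1 else 0)‖ ≤ vonMangoldt m + 1 := by
    refine (norm_sub_le _ _).trans ?_
    apply add_le_add
    · rw [Complex.norm_real, Real.norm_eq_abs, abs_of_nonneg vonMangoldt_nonneg]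
    · split_ifs <;> simp
  have h3 : vonMangoldt m ≤ Real.log m := vonMangoldt_le_log
  have h4 : Real.log m ≤ Real.log ((64 : ℝ) * (N : ℝ) ^ 3) := Real.log_le_log hm0 (by exact_mod_cast hm.2)
  rw [Real.log_mul (by norm_num) (by positivity), Real.log_pow] at h4
  have h5 : Real.log (64 : ℝ) = 6 * Real.log 2 := by
    rw [show (64 : ℝ) = 2 ^ 6 by norm_num, Real.log_pow]
    norm_num
  rw [h5] at h4
  have h6 := Real.log_two_lt_d9
  calc ‖(vonMangoldt m : ℂ) - (if q = 1 then 1 else 0)‖ * ‖ψ (m : ZMod q)‖ ≤ (vonMangoldt m + 1) * 1 := by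
        apply mul_le_mul h2 h1 (norm_nonneg _)
        have := @vonMangoldt_nonneg m
        linarith
    _ ≤ 6 * Real.log N := by
        push_cast at h4
        linarith

theorem PCE (hPMS : PMS_stmt) : PCE_stmt := by
  intro η hη A Bq
  set ε := min (η / 4) (1 / 10) with hε
  have hε0 : 0 < ε := lt_min (by linarith) (by norm_num)
  have hε1 : ε ≤ 1 / 10 := min_le_right _ _
  have hε2 : ε ≤ η / 4 := min_le_left _ _
  obtain ⟨B, N₀, hP⟩ := hPMS ε hε0 hε1 (2 * A + 3) (Bq + 1)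
  obtain ⟨N₁, hE⟩ := PCE_ev η hη (A + 2) (15000 * 3 ^ A + 3 ^ Bq + 2)
  obtain ⟨x₁, hx₁⟩ := PSX_N (max N₀ N₁)
  obtain ⟨x₂, hx₂⟩ := PSX_log 2
  refine ⟨B + 1, max (max x₁ x₂) 2, fun x hx K hKB hKx q hq hqB ψ hψ => ?_⟩
  obtain ⟨N, hN, hxN, hNx, hNx', hN3, hlx, hlN⟩ := hx₁ x ((le_max_left _ _).trans ((le_max_left _ _).trans hx))
  have hlog := hx₂ x ((le_max_right _ _).trans ((le_max_left _ _).trans hx))
  have hx2 : 2 ≤ x := (le_max_right _ _).trans hx
  obtain ⟨hL, hLN, hNη⟩ := hE N ((le_max_right _ _).trans hN)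
  have hNN : N₀ ≤ N := (le_max_left _ _).trans hN
  set L := Real.log N with hLdef
  have h3A : (1 : ℝ) ≤ 3 ^ A := one_le_pow₀ (by norm_num)
  have h3B : (1 : ℝ) ≤ 3 ^ Bq := one_le_pow₀ (by norm_num)
  have hL2 : 2 ≤ L := by linarith
  have hL0 : 0 < L := by linarith
  have hlx0 : 0 < Real.log x := by linarith
  have hx0 : (0 : ℝ) < x := by exact_mod_cast (by omega : 0 < x)
  have hK2 : 1 < (K : ℝ) := by
    refine lt_of_lt_of_le ?_ hKB
    exact one_lt_pow₀ (by linarith) (by omega)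
  have hK0 : (0 : ℝ) < K := by linarith
  have hK1 : 1 ≤ K := by
    have : (0 : ℝ) < K := hK0
    exact_mod_cast this
  have hl2a := Real.log_two_gt_d9
  have hl2b := Real.log_two_lt_d9
  set δ := Real.log 2 / K with hδ
  have hδ0 : 0 < δ := by positivity
  have hδK : δ * K = Real.log 2 := by
    rw [hδ]
    field_simp
  have hδ1 : δ ≤ 1 := by
    rw [hδ, div_le_one hK0]
    linarith
  have hδlow : (N : ℝ) ^ (-2 + 8 * ε) ≤ δ :=
    PCE_dl η ε hη (by linarith) x N K hN3 hKx hK2 hxN (by omega) hNη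
  have hδup : δ ≤ 1 / L ^ B := by
    rw [le_div_iff₀ (by positivity)]
    have h1 : L ^ B ≤ K := by
      calc L ^ B ≤ Real.log x ^ B := pow_le_pow_left₀ hL0.le hlN B
        _ ≤ Real.log x ^ (B + 1) := pow_le_pow_right₀ (by linarith) (by omega)
        _ ≤ K := hKB
    calc δ * L ^ B ≤ δ * K := mul_le_mul_of_nonneg_left h1 hδ0.le
      _ = Real.log 2 := hδK
      _ ≤ 1 := by linarith
  have hqN : (q : ℝ) ≤ L ^ (Bq + 1) := by
    calc (q : ℝ) ≤ Real.log x ^ Bq := hqB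
      _ ≤ (3 * L) ^ Bq := pow_le_pow_left₀ hlx0.le hlx _
      _ = 3 ^ Bq * L ^ Bq := by rw [mul_pow]
      _ ≤ L * L ^ Bq := by
          apply mul_le_mul_of_nonneg_right _ (by positivity)
          linarith
      _ = L ^ (Bq + 1) := by ring
  have hI := hP N hNN δ hδlow hδup q hq hqN ψ hψ
  set F : ℝ → ℝ := fun v => ‖∑ m ∈ Ioc 0 (64 * N ^ 3), Pool.Agent.FJ.hL q ψ m * ((bxw δ (Real.log (m : ℝ) - v) : ℝ) : ℂ)‖ ^ 2 with hF
  set ρ := δ / L ^ (A + 2) with hρ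
  have hρ0 : 0 < ρ := by positivity
  have hLA : 2 ≤ L ^ (A + 2) := by
    calc (2 : ℝ) ≤ L := hL2
      _ = L ^ 1 := (pow_one L).symm
      _ ≤ L ^ (A + 2) := pow_le_pow_right₀ (by linarith) (by omega)
  have hρδ : ρ ≤ δ / 2 := by
    rw [hρ]
    exact div_le_div_of_nonneg_left hδ0.le (by norm_num) hLA
  have hρ1 : ρ ≤ 1 := by linarith
  have hN0 : (0 : ℝ) < N := by exact_mod_cast (by omega : 0 < N)
  have hN1 : (1 : ℝ) ≤ N := by exact_mod_cast (by omega : 1 ≤ N)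
  have hNx2 : (N : ℝ) ^ 3 ≤ 2 * x := by exact_mod_cast hNx
  have hxN2 : (x : ℝ) ≤ (N : ℝ) ^ 3 := by exact_mod_cast hxN
  -- x ρ ≥ 1
  have hxρ : 1 ≤ x * ρ := by
    have h1 : (N : ℝ) ^ (-2 : ℝ) ≤ δ := by
      refine le_trans ?_ hδlow
      apply Real.rpow_le_rpow_of_exponent_le hN1
      linarith
    have h2 : (N : ℝ) ^ (-2 : ℝ) = 1 / (N : ℝ) ^ 2 := by
      rw [Real.rpow_neg hN0.le, one_div]
      norm_num
    rw [h2, div_le_iff₀ (by positivity)] at h1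
    rw [hρ, mul_div_assoc', le_div_iff₀ (by positivity), one_mul]
    have h3 : (N : ℝ) ≤ 2 * (x * δ) := by
      calc (N : ℝ) = N * 1 := (mul_one _).symm
        _ ≤ N * (δ * (N : ℝ) ^ 2) := mul_le_mul_of_nonneg_left h1 hN0.le
        _ = δ * (N : ℝ) ^ 3 := by ring
        _ ≤ δ * (2 * x) := mul_le_mul_of_nonneg_left hNx2 hδ0.le
        _ = 2 * (x * δ) := by ring
    linarith
  set a : ℕ → ℝ := fun i => Real.log x + i * δ with ha
  have haK : ∀ i : ℕ, i < K → Real.exp (a i + δ) ≤ 2 * x := by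
    intro i hi
    have h1 : a i + δ ≤ Real.log x + Real.log 2 := by
      simp only [ha]
      have h2 : ((i : ℝ) + 1) * δ ≤ K * δ := by
        apply mul_le_mul_of_nonneg_right _ hδ0.le
        exact_mod_cast hi
      nlinarith
    calc Real.exp (a i + δ) ≤ Real.exp (Real.log x + Real.log 2) := Real.exp_le_exp.2 h1
      _ = 2 * x := by
          rw [Real.exp_add, Real.exp_log hx0, Real.exp_log (by norm_num)]
          ring
  have hFint : ∀ b c : ℝ, IntervalIntegrable F volume b c := fun b c => PCE_int _ _ _ _ _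
  have hFnn : ∀ v, 0 ≤ F v := fun v => by positivity
  have hcell : ∀ i ∈ range K, ‖∑ l ∈ cl x K i, ((vonMangoldt l.toNat : ℂ) - (if q = 1 then 1 else 0)) * ψ (l : ZMod q)‖ ^ 2 ≤
      1 / ρ * (∫ v in (a i)..(a (i + 1)), F v) + 2 * (84 * x * ρ * L) ^ 2 := by
    intro i hi
    rw [Finset.mem_range] at hi
    rw [PSX_cell]
    have h1 : ‖∑ m ∈ Ioc (gp x K i) (gp x K (i + 1)), Pool.Agent.FJ.hL q ψ m‖ ^ 2 ≤
        1 / ρ * (∫ v in (a i + δ / 2 - ρ)..(a i + δ / 2 + ρ), F v) + 2 * (84 * x * ρ * L) ^ 2 := by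
      apply PCE_one F _ _ _ ρ hρ0 hFint
      intro w hw
      have h2 := PCE_diff (64 * N ^ 3) (Pool.Agent.FJ.hL q ψ) (6 * L) x (a i) δ w ρ (by positivity)
        (fun m hm => PCE_hL N q m (by omega) hL2 hq ψ hm) hδ0.le hw hρ0.le hρ1 (haK i hi)
      rw [← PCE_cell x K i (64 * N ^ 3) (by omega) hi (by omega)] at h2
      have h3 : 6 * L * (2 * (6 * x * ρ + 1)) ≤ 84 * x * ρ * L := by nlinarith
      have h4 := h2.trans h3
      simp only [hF]
      generalize (∑ m ∈ Ioc (gp x K i) (gp x K (i + 1)), Pool.Agent.FJ.hL q ψ m) = C at h4 ⊢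
      generalize (∑ m ∈ Ioc 0 (64 * N ^ 3), Pool.Agent.FJ.hL q ψ m * ((bxw δ (Real.log (m : ℝ) - w) : ℝ) : ℂ)) = S at h4 ⊢
      have h5 : ‖C‖ ≤ ‖S‖ + 84 * x * ρ * L := by
        have h6 : ‖C‖ = ‖S + (C - S)‖ := by congr 1; ring
        rw [h6]
        exact (norm_add_le _ _).trans (by linarith)
      have h7 : ‖C‖ ^ 2 ≤ (‖S‖ + 84 * x * ρ * L) ^ 2 := pow_le_pow_left₀ (norm_nonneg _) h5 2
      nlinarith [sq_nonneg (‖S‖ - 84 * x * ρ * L)]
    have h2 : ∫ v in (a i + δ / 2 - ρ)..(a i + δ / 2 + ρ), F v ≤ ∫ v in (a i)..(a (i + 1)), F v := by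
      have h3 : a (i + 1) = a i + δ := by
        simp only [ha]
        push_cast
        ring
      apply intervalIntegral.integral_mono_interval (by linarith) (by linarith) (by linarith) _ (hFint _ _)
      exact Filter.Eventually.of_forall hFnn
    have h3 : 1 / ρ * (∫ v in (a i + δ / 2 - ρ)..(a i + δ / 2 + ρ), F v) ≤ 1 / ρ * (∫ v in (a i)..(a (i + 1)), F v) :=
      mul_le_mul_of_nonneg_left h2 (by positivity)
    linarith
  have hsum : ∑ i ∈ range K, ∫ v in (a i)..(a (i + 1)), F v = ∫ v in (a 0)..(a K), F v :=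
    intervalIntegral.sum_integral_adjacent_intervals fun i _ => hFint _ _
  have hbig : ∫ v in (a 0)..(a K), F v ≤ ∫ v in (3 * L - 1)..(3 * L + 1), F v := by
    have e0 : a 0 = Real.log x := by simp [ha]
    have eK : a K = Real.log x + Real.log 2 := by
      simp only [ha]
      rw [← hδK]
      ring
    have h3L : 3 * L ≤ Real.log x + Real.log 2 := by
      have h1 : Real.log ((N : ℝ) ^ 3) ≤ Real.log (2 * x) := Real.log_le_log (by positivity) hNx2
      rw [Real.log_pow, Real.log_mul (by norm_num) hx0.ne'] at h1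
      push_cast at h1
      linarith
    apply intervalIntegral.integral_mono_interval _ _ _ _ (hFint _ _)
    · rw [e0]; linarith
    · rw [e0, eK]; linarith
    · rw [eK]; linarith
    · exact Filter.Eventually.of_forall hFnn
  calc ∑ i ∈ range K, ‖∑ l ∈ cl x K i, ((vonMangoldt l.toNat : ℂ) - (if q = 1 then 1 else 0)) * ψ (l : ZMod q)‖ ^ 2
      ≤ ∑ i ∈ range K, (1 / ρ * (∫ v in (a i)..(a (i + 1)), F v) + 2 * (84 * x * ρ * L) ^ 2) := Finset.sum_le_sum hcell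
    _ = 1 / ρ * (∫ v in (a 0)..(a K), F v) + K * (2 * (84 * x * ρ * L) ^ 2) := by
        rw [Finset.sum_add_distrib, ← Finset.mul_sum, hsum, Finset.sum_const, Finset.card_range, nsmul_eq_mul]
    _ ≤ (x : ℝ) ^ 2 / (K * Real.log x ^ A) := by
        apply PCE_num A K L (Real.log x) x ((N : ℝ) ^ 3) δ ρ _ hK2.le hx0.le (by positivity) hNx2 hδ0 (by linarith) (by linarith) hlx0 hlx hρ
        refine hbig.trans ?_
        refine hI.trans (le_of_eq ?_)
        ring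

end Pool.Agent.FJ
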