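import Pool.Agent.helper94.FJ.SpecP
import Pool.Agent.helper95.FJ.SpecE

/-!
# Project fj (MP_ad8ced_nt), row PSI: from PCE and PSK to the interface
-/

set_option autoImplicit false

namespace Pool.Agent.FJ

open Finset ArithmeticFunction MeasureTheory

private lemma PSI_ne {q : ℕ} (hq : 1 ≤ q) (ψ : DirichletCharacter ℂ q) (h : ψ.IsPrimitive) : q = 1 ∨ ψ ≠ 1 := by
  have : NeZero q := ⟨by omega⟩
  by_cases h1 : ψ = 1
  · left
    have h2 : ψ.conductor = q := h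
    rw [h1, DirichletCharacter.conductor_one] at h2
    exact h2.symm
  · exact Or.inr h1

theorem PSI (hPCE : PCE_stmt) (hPSK : PSK_stmt) : PSI_stmt := by
  intro η hη A Bq
  obtain ⟨B, x₁, h1⟩ := hPCE η hη A Bq
  obtain ⟨x₂, h2⟩ := hPSK A Bq B
  refine ⟨max x₁ x₂, fun x hx K hK hK2 q hq hq2 ψ hψ => ?_⟩
  have hxa : x₁ ≤ x := (le_max_left _ _).trans hx
  have hxb : x₂ ≤ x := (le_max_right _ _).trans hx
  rcases le_total (Real.log x ^ B) (K : ℝ) with hc | hc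
  · exact h1 x hxa K hc hK2 q hq hq2 ψ (PSI_ne hq ψ hψ)
  · exact h2 x hxb K hK hc q hq hq2 ψ (PSI_ne hq ψ hψ)

end Pool.Agent.FJ
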