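import Pool.Agent.helper94.FJ.PSX

/-!
# Project fj (MP_ad8ced_nt), row PSK: cells, `K` small
-/

set_option autoImplicit false

namespace Pool.Agent.FJ

open Finset ArithmeticFunction MeasureTheory

private lemma PSK_num (B A : ℕ) (x N3 lx lN : ℝ) (K : ℝ) (hK : 1 ≤ K) (hKB : K ≤ lx ^ B) (hx : 0 ≤ x) (hN3 : 0 ≤ N3) (hN : N3 ≤ 2 * x)
    (h3 : lx ≤ 3 * lN) (h1 : 256 ^ 2 * 9 ^ (A + B + 1) ≤ lx) :
    K * (2 * (64 * N3 / lN ^ (A + B + 1))) ^ 2 ≤ x ^ 2 / (K * lx ^ A) := by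
  have hlx : 0 < lx := lt_of_lt_of_le (by positivity) h1
  have hlx1 : 1 ≤ lx := le_trans (by
    have : (1 : ℝ) ≤ 9 ^ (A + B + 1) := one_le_pow₀ (by norm_num)
    linarith) h1
  have hlN : 0 < lN := by linarith
  have hK0 : 0 < K := by linarith
  have e1 : lx ^ (A + B + 1) ≤ 3 ^ (A + B + 1) * lN ^ (A + B + 1) := by
    rw [← mul_pow]
    exact pow_le_pow_left₀ hlx.le h3 _
  have e2 : 64 * N3 / lN ^ (A + B + 1) ≤ 128 * x * 3 ^ (A + B + 1) / lx ^ (A + B + 1) := by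
    rw [div_le_div_iff₀ (by positivity) (by positivity)]
    calc 64 * N3 * lx ^ (A + B + 1) ≤ (128 * x) * (3 ^ (A + B + 1) * lN ^ (A + B + 1)) := by
          apply mul_le_mul _ e1 (by positivity) (by positivity)
          linarith
      _ = _ := by ring
  have e3 : (2 * (64 * N3 / lN ^ (A + B + 1))) ^ 2 ≤ (256 * x * 3 ^ (A + B + 1) / lx ^ (A + B + 1)) ^ 2 := by
    apply pow_le_pow_left₀ (by positivity)
    calc 2 * (64 * N3 / lN ^ (A + B + 1)) ≤ 2 * (128 * x * 3 ^ (A + B + 1) / lx ^ (A + B + 1)) := by linarith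
      _ = _ := by ring
  calc K * (2 * (64 * N3 / lN ^ (A + B + 1))) ^ 2 ≤ K * (256 * x * 3 ^ (A + B + 1) / lx ^ (A + B + 1)) ^ 2 := by
        apply mul_le_mul_of_nonneg_left e3 hK0.le
    _ ≤ x ^ 2 / (K * lx ^ A) := by
        rw [le_div_iff₀ (by positivity), div_pow, mul_div_assoc', div_mul_eq_mul_div, div_le_iff₀ (by positivity)]
        have e4 : K * K ≤ lx ^ B * lx ^ B := mul_le_mul hKB hKB hK0.le (by positivity)
        have e5 : (3 : ℝ) ^ (A + B + 1) * 3 ^ (A + B + 1) = 9 ^ (A + B + 1) := by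
          rw [← mul_pow]; norm_num
        calc K * (256 * x * 3 ^ (A + B + 1)) ^ 2 * (K * lx ^ A)
            = (K * K) * (256 ^ 2 * (3 ^ (A + B + 1) * 3 ^ (A + B + 1))) * (x ^ 2 * lx ^ A) := by ring
          _ = (K * K) * (256 ^ 2 * 9 ^ (A + B + 1)) * (x ^ 2 * lx ^ A) := by rw [e5]
          _ ≤ (lx ^ B * lx ^ B) * lx * (x ^ 2 * lx ^ A) := by
              apply mul_le_mul_of_nonneg_right _ (by positivity)
              apply mul_le_mul e4 h1 (by positivity) (by positivity)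
          _ = x ^ 2 * lx ^ (2 * B + A + 1) := by ring
          _ ≤ x ^ 2 * lx ^ ((A + B + 1) * 2) := by
              apply mul_le_mul_of_nonneg_left _ (by positivity)
              exact pow_le_pow_right₀ hlx1 (by omega)
          _ = x ^ 2 * (lx ^ (A + B + 1)) ^ 2 := by rw [← pow_mul]

theorem PSK (hPSR : Pool.Agent.SK.PSR_stmt) : PSK_stmt := by
  intro A Bq B
  obtain ⟨N₀, hN₀⟩ := PSX_psi hPSR (A + B + 1) (Bq + 1)
  obtain ⟨x₁, hx₁⟩ := PSX_N N₀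
  obtain ⟨x₂, hx₂⟩ := PSX_log (256 ^ 2 * 9 ^ (A + B + 1) + 3 * 3 ^ Bq)
  refine ⟨max x₁ x₂, fun x hx K hK hKB q hq hqB ψ hψ => ?_⟩
  obtain ⟨N, hN, h1, h2, h3, h4, h5, h6⟩ := hx₁ x ((le_max_left _ _).trans hx)
  have hl := hx₂ x ((le_max_right _ _).trans hx)
  have hlx : 256 ^ 2 * 9 ^ (A + B + 1) ≤ Real.log x := by
    have : (0 : ℝ) ≤ 3 * 3 ^ Bq := by positivity
    linarith
  have hlB : 3 * 3 ^ Bq ≤ Real.log x := by
    have : (0 : ℝ) ≤ 256 ^ 2 * 9 ^ (A + B + 1) := by positivity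
    linarith
  have hlxpos : 0 < Real.log x := lt_of_lt_of_le (by positivity) hlB
  have hlNpos : 0 < Real.log N := by linarith
  have hqN : (q : ℝ) ≤ Real.log N ^ (Bq + 1) := by
    calc (q : ℝ) ≤ Real.log x ^ Bq := hqB
      _ ≤ (3 * Real.log N) ^ Bq := pow_le_pow_left₀ hlxpos.le h5 _
      _ = 3 ^ Bq * Real.log N ^ Bq := by rw [mul_pow]
      _ ≤ Real.log N * Real.log N ^ Bq := by
          apply mul_le_mul_of_nonneg_right _ (by positivity)
          linarith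
      _ = Real.log N ^ (Bq + 1) := by ring
  have hcell : ∀ i ∈ range K, ‖∑ l ∈ cl x K i, ((vonMangoldt l.toNat : ℂ) - (if q = 1 then 1 else 0)) * ψ (l : ZMod q)‖ ^ 2 ≤
      (2 * (64 * (N : ℝ) ^ 3 / Real.log N ^ (A + B + 1))) ^ 2 := by
    intro i hi
    rw [Finset.mem_range] at hi
    apply pow_le_pow_left₀ (norm_nonneg _)
    rw [PSX_cell, PSX_Ioc _ _ _ (PSX_gp_mono x K i)]
    refine (norm_sub_le _ _).trans ?_
    have g1 : gp x K (i + 1) ≤ 64 * N ^ 3 := (PSX_gp_le x K (i + 1) (by omega)).trans (by omega)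
    have g2 : gp x K i ≤ 64 * N ^ 3 := (PSX_gp_le x K i (by omega)).trans (by omega)
    have a1 := hN₀ N hN _ g1 q hq hqN ψ hψ
    have a2 := hN₀ N hN _ g2 q hq hqN ψ hψ
    linarith
  calc ∑ i ∈ range K, ‖∑ l ∈ cl x K i, ((vonMangoldt l.toNat : ℂ) - (if q = 1 then 1 else 0)) * ψ (l : ZMod q)‖ ^ 2
      ≤ ∑ i ∈ range K, (2 * (64 * (N : ℝ) ^ 3 / Real.log N ^ (A + B + 1))) ^ 2 := Finset.sum_le_sum hcell
    _ = K * (2 * (64 * (N : ℝ) ^ 3 / Real.log N ^ (A + B + 1))) ^ 2 := by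
        rw [Finset.sum_const, Finset.card_range, nsmul_eq_mul]
    _ ≤ (x : ℝ) ^ 2 / (K * Real.log x ^ A) := by
        apply PSK_num B A x _ _ _ K (by exact_mod_cast hK) hKB (Nat.cast_nonneg _) (by positivity) (by exact_mod_cast h2) h5 hlx

end Pool.Agent.FJ
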