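import Pool.Agent.helper94.FJ.SpecP

/-!
# Project fj (MP_ad8ced_nt), common lemmas for the rows PSK and PCE (cells and the auxiliary `N`)
-/

set_option autoImplicit false

namespace Pool.Agent.FJ

open Finset ArithmeticFunction MeasureTheory

/-- the sum over a cell as a sum over natural numbers -/
theorem PSX_cell (x K i q : ℕ) (ψ : DirichletCharacter ℂ q) :
    ∑ l ∈ cl x K i, ((vonMangoldt l.toNat : ℂ) - (if q = 1 then 1 else 0)) * ψ (l : ZMod q) =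
      ∑ m ∈ Ioc (gp x K i) (gp x K (i + 1)), hL q ψ m := by
  unfold cl
  symm
  apply Finset.sum_nbij (fun m : ℕ => (m : ℤ))
  · intro m hm
    simp only [mem_Ioc] at hm ⊢
    omega
  · intro a _ b _ h
    exact Int.ofNat_inj.1 h
  · intro l hl
    simp only [coe_Ioc, Set.mem_Ioc, Set.mem_image] at hl ⊢
    exact ⟨l.toNat, by omega, by omega⟩
  · intro m _
    unfold hL
    simp

theorem PSX_gp_mono (x K i : ℕ) : gp x K i ≤ gp x K (i + 1) := by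
  unfold gp
  apply Nat.floor_mono
  apply mul_le_mul_of_nonneg_left _ (Nat.cast_nonneg _)
  apply Real.rpow_le_rpow_of_exponent_le one_le_two
  push_cast
  apply div_le_div_of_nonneg_right _ (Nat.cast_nonneg _)
  linarith

theorem PSX_gp_le (x K i : ℕ) (hi : i ≤ K) : gp x K i ≤ 2 * x := by
  unfold gp
  apply Nat.floor_le_of_le
  push_cast
  rw [mul_comm]
  apply mul_le_mul_of_nonneg_right _ (Nat.cast_nonneg _)
  calc (2 : ℝ) ^ ((i : ℝ) / K) ≤ 2 ^ (1 : ℝ) := by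
        apply Real.rpow_le_rpow_of_exponent_le one_le_two
        apply div_le_one_of_le₀ _ (Nat.cast_nonneg _)
        exact_mod_cast hi
    _ = 2 := by norm_num

/-- the auxiliary `N = ⌈x^(1/3)⌉` -/
theorem PSX_N (N₀ : ℕ) : ∃ x₀ : ℕ, ∀ x : ℕ, x₀ ≤ x → ∃ N : ℕ, N₀ ≤ N ∧ x ≤ N ^ 3 ∧ N ^ 3 ≤ 2 * x ∧ N ≤ x ∧ 3 ≤ N ∧
    Real.log x ≤ 3 * Real.log N ∧ Real.log N ≤ Real.log x := by
  refine ⟨(N₀ + 10) ^ 3, fun x hx => ?_⟩
  set N := ⌈(x : ℝ) ^ (1 / 3 : ℝ)⌉₊ with hN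
  have hx0 : (0 : ℝ) ≤ x := Nat.cast_nonneg _
  have hc : ((x : ℝ) ^ (1 / 3 : ℝ)) ^ 3 = x := by
    rw [← Real.rpow_natCast, ← Real.rpow_mul hx0]
    norm_num
  have h1 : (x : ℝ) ^ (1 / 3 : ℝ) ≤ N := Nat.le_ceil _
  have h0 : 0 ≤ (x : ℝ) ^ (1 / 3 : ℝ) := Real.rpow_nonneg hx0 _
  have h2 : (N : ℝ) < (x : ℝ) ^ (1 / 3 : ℝ) + 1 := Nat.ceil_lt_add_one h0
  have h3 : ((N₀ + 10 : ℕ) : ℝ) ≤ (x : ℝ) ^ (1 / 3 : ℝ) := by
    by_contra hcon
    push Not at hcon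
    have h4 : ((x : ℝ) ^ (1 / 3 : ℝ)) ^ 3 < ((N₀ + 10 : ℕ) : ℝ) ^ 3 := pow_lt_pow_left₀ hcon h0 (by norm_num)
    rw [hc] at h4
    have h5 : ((((N₀ + 10) ^ 3 : ℕ)) : ℝ) ≤ x := by exact_mod_cast hx
    push_cast at h4 h5
    linarith
  have hN3 : x ≤ N ^ 3 := by
    have h4 : ((x : ℝ) ^ (1 / 3 : ℝ)) ^ 3 ≤ (N : ℝ) ^ 3 := pow_le_pow_left₀ h0 h1 3
    rw [hc] at h4
    exact_mod_cast h4
  have hN10 : N₀ + 10 ≤ N := by
    have : ((N₀ + 10 : ℕ) : ℝ) ≤ N := h3.trans h1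
    exact_mod_cast this
  have hy10 : (10 : ℝ) ≤ (x : ℝ) ^ (1 / 3 : ℝ) := by
    refine le_trans ?_ h3
    push_cast
    have : (0 : ℝ) ≤ N₀ := Nat.cast_nonneg _
    linarith
  have hN2 : N ^ 3 ≤ 2 * x := by
    set y := (x : ℝ) ^ (1 / 3 : ℝ) with hy
    have h6 : (N : ℝ) ^ 3 ≤ (y + 1) ^ 3 := pow_le_pow_left₀ (Nat.cast_nonneg _) h2.le 3
    have h7 : (y + 1) ^ 3 ≤ 2 * y ^ 3 := by nlinarith [sq_nonneg y, mul_nonneg h0 (sq_nonneg y), mul_nonneg (sub_nonneg.2 hy10) (sq_nonneg y)]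
    have h8 : (N : ℝ) ^ 3 ≤ 2 * x := by rw [← hc]; linarith
    exact_mod_cast h8
  have hNx : N ≤ x := by
    have h9 : N * 100 ≤ N ^ 3 := by
      have h11 : 100 ≤ N * N := by nlinarith
      calc N * 100 ≤ N * (N * N) := Nat.mul_le_mul_left _ h11
        _ = N ^ 3 := by ring
    omega
  have hNpos : (0 : ℝ) < N := by exact_mod_cast (by omega : 0 < N)
  have hxpos : (0 : ℝ) < x := by exact_mod_cast (by omega : 0 < x)
  refine ⟨N, by omega, hN3, hN2, hNx, by omega, ?_, ?_⟩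
  · have h10 : Real.log x ≤ Real.log ((N : ℝ) ^ 3) := Real.log_le_log hxpos (by exact_mod_cast hN3)
    rw [Real.log_pow] at h10
    exact_mod_cast h10
  · exact Real.log_le_log hNpos (by exact_mod_cast hNx)

theorem PSX_log (R : ℝ) : ∃ x₀ : ℕ, ∀ x : ℕ, x₀ ≤ x → R ≤ Real.log x := by
  have h := (Real.tendsto_log_atTop.comp tendsto_natCast_atTop_atTop).eventually_ge_atTop R
  obtain ⟨x₀, h⟩ := Filter.eventually_atTop.1 h
  exact ⟨x₀, fun x hx => h x hx⟩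

/-- for modulus one every character is trivial -/
theorem PSX_one (ψ : DirichletCharacter ℂ 1) (m : ZMod 1) : ψ m = 1 := by
  have h1 : m = 1 := Subsingleton.elim _ _
  rw [h1, map_one]

/-- partial sums of `hL` -/
theorem PSX_psi (hPSR : Pool.Agent.SK.PSR_stmt) (A Bq : ℕ) : ∃ N₀ : ℕ, ∀ N : ℕ, N₀ ≤ N → ∀ u : ℕ, u ≤ 64 * N ^ 3 →
    ∀ q : ℕ, 1 ≤ q → (q : ℝ) ≤ Real.log N ^ Bq → ∀ ψ : DirichletCharacter ℂ q, (q = 1 ∨ ψ ≠ 1) →
    ‖∑ m ∈ Ioc 0 u, hL q ψ m‖ ≤ 64 * (N : ℝ) ^ 3 / Real.log N ^ A := by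
  obtain ⟨N₀, h⟩ := hPSR A Bq 3 (by norm_num)
  refine ⟨N₀, fun N hN u hu q hq hqB ψ hψ => ?_⟩
  have hN3 : (0 : ℝ) ≤ (N : ℝ) ^ 3 := by positivity
  obtain ⟨h1, h2⟩ := h N hN (64 * (N : ℝ) ^ 3) (by
    have : (N : ℝ) ^ (3 : ℝ) = (N : ℝ) ^ (3 : ℕ) := by exact_mod_cast Real.rpow_natCast (N : ℝ) 3
    rw [this]; linarith) le_rfl u (by exact_mod_cast hu)
  by_cases hq1 : q = 1
  · subst hq1
    have : ∀ m : ℕ, hL 1 ψ m = (vonMangoldt m : ℂ) - 1 := by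
      intro m
      unfold hL
      rw [PSX_one]
      simp
    simp_rw [this]
    exact h2
  · have hψ1 : ψ ≠ 1 := by
      rcases hψ with h3 | h3
      · exact absurd h3 hq1
      · exact h3
    have : ∀ m : ℕ, hL q ψ m = (vonMangoldt m : ℂ) * ψ m := by
      intro m
      unfold hL
      rw [if_neg hq1, sub_zero]
    simp_rw [this]
    exact h1 q hq hqB ψ hψ1

/-- difference of two partial sums -/
theorem PSX_Ioc {M : Type*} [AddCommGroup M] (f : ℕ → M) (a b : ℕ) (hab : a ≤ b) :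
    ∑ m ∈ Ioc a b, f m = ∑ m ∈ Ioc 0 b, f m - ∑ m ∈ Ioc 0 a, f m := by
  rw [eq_sub_iff_add_eq, add_comm, ← Finset.sum_union]
  · congr 1
    ext m
    simp only [mem_union, mem_Ioc]
    omega
  · rw [Finset.disjoint_left]
    intro m hm
    simp only [mem_Ioc] at hm ⊢
    omega

end Pool.Agent.FJ
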