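import Pool.Agent.helper95.FJ.SpecC
import Pool.Agent.helper24.SK.Spec

/-!
# Project fj (MP_ad8ced_nt, theorem B+), Spec P: primes with characters in ALMOST ALL windows of length `x^(1/3+η)`

Architect of this block: helper94.  Result: `PCE_stmt`, `PSK_stmt`, together `PSI_stmt` of Pool/Agent/helper95/FJ/SpecE.lean.

RULES.  File `Pool/Agent/<seat>/FJ/XX.lean`, `import Pool.Agent.helper94.FJ.SpecP`, `namespace Pool.Agent.FJ`, the `open` lines of this file,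
`theorem XX (h1 : YY_stmt) ... : XX_stmt`; auxiliary lemmas prefixed `XX_` (private where possible).  Never change this file.  If a statement is
wrong tell helper94 at once.  No `convert` / `congr!`, no `native_decide`, no straight double quotes.  Other statements of this file may be used as
hypotheses only.  The rows of project SK (Pool/Agent/helper24/SK/Spec.lean) are all PROVED: import the file and cite the theorem, or use the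
statement as hypothesis (`hMVP : Pool.Agent.SK.MVP_stmt`; all closed in Pool/Agent/helper24/SK/All.lean as `sk_XX`).  Files:
TRC helper37, THB TRB FGB helper41 (look with `ls Pool/Agent/*/SK/XX.lean`), HB7 helper18, PRD helper52, MVP helper37, SML helper24, BLK helper2,
BL4 helper22, VDK helper34, DEC, SPK, TAM, TLD (helper68), PSR.

NOTATION.  `N` large, `L = log N`.  `ε` small, `δ` = log-width of the narrow window, `N^(-2+8ε) ≤ δ ≤ δ' = 1/L^B` (wide window).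
`DPb M a t = ∑_{M ≤ m < 2M} a m m^(it)` (CH/DefsW), `nit t x = x^(it)`.  Frequencies: `T2s ε B₁ N` = `{L^B₁ ≤ |t| ≤ N^(2-4ε)}`.
Cut of the smooth variables: `XPc ε N = ⌊N^(2-2ε)⌋`, of the Moebius variables `zN N ≤ 4 N^(3/7)` (SK).

PROOF.  `kbw` = narrow window minus `δ/δ'` times the wide window.  Parseval (PFB): the integral over `v` of the square of
`∑ f_w kbw (log x_w - v)` is at most `∫ ‖F(t)‖² wkt dt`, `F(t) = ∑ f_w x_w^(it)`, `wkt ≤ δ²`, `≤ δ² (δ' t)⁴`, `≤ 4/t²`.  Heath-Brown's identity of order 7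
(SK.DEC with `r = 0`) writes `Λ` as a sum of products with all variables `≤ XPc` and of type I terms `E * bgf XPc h`; dyadic blocks.  For a block of
polynomials with product of lengths `≈ N³`: (i) `|t| ≤ L^B₁` and `|t| ≥ N^(2-4ε)`: trivial bound and mean values (PIN); (ii) a block length in
`[N^(1/1000), N^(1+2ε)]`: sup bound for it (Vinogradov, SK.SPK), mean value for the rest, of length `≥ N^(2-4ε)` (PB2); (iii) otherwise exactly two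
lengths `> N^(1+2ε)`, both smooth: van der Corput for the longer one, mean value for the rest (PB3); type I: the same (PB1).  The wide window by
the prime number theorem with characters (SK.PSR), then from windows to the cells.
-/

set_option autoImplicit false

namespace Pool.Agent.FJ

open Finset ArithmeticFunction MeasureTheory
open Pool.Agent.CH (nit DPb)
open Pool.Agent.SK (tr0 Th muz sml bgf zN uu)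
open Pool.Agent.helper85.BVP (tau)

/-- the window of width `δ` -/
noncomputable def bxw (δ y : ℝ) : ℝ := if |y| ≤ δ / 2 then 1 else 0

/-- narrow window minus scaled wide window -/
noncomputable def kbw (δ δ' y : ℝ) : ℝ := bxw δ y - δ / δ' * bxw δ' y

/-- the weight on the Fourier side (`4 / 0 = 0`, only one point) -/
noncomputable def wkt (δ δ' t : ℝ) : ℝ := min (min (δ ^ 2) (δ ^ 2 * (δ' * t) ^ 4)) (4 / t ^ 2)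

/-- the frequencies `(log N)^B₁ ≤ |t| ≤ N^(2-4ε)` -/
def T2s (ε : ℝ) (B₁ N : ℕ) : Set ℝ := {t : ℝ | Real.log N ^ B₁ ≤ |t| ∧ |t| ≤ (N : ℝ) ^ (2 - 4 * ε)}

/-- cut of the smooth variables -/
noncomputable def XPc (ε : ℝ) (N : ℕ) : ℕ := ⌊(N : ℝ) ^ (2 - 2 * ε)⌋₊

/-- `Λ - 1` for modulus 1, `Λ` otherwise, times the character -/
noncomputable def hL (q : ℕ) (ψ : DirichletCharacter ℂ q) (m : ℕ) : ℂ :=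
  ((vonMangoldt m : ℂ) - (if q = 1 then 1 else 0)) * ψ m

/-! ## Part A: Parseval for windows -/

/-- **PBX** (short, medium).  Correlation of two windows, `0 < a ≤ b`.  Proof.  `∫_v 1[|y-v| ≤ a/2] 1[|y'-v| ≤ b/2]` = length of the intersection of two
intervals `= max 0 (min a ((a+b)/2 - |y-y'|))` (`Real.volume_Icc`, the integrand is the indicator of an intersection of two `Icc`), and this equals the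
difference of the two tents: cases `|z| ≤ (b-a)/2`, `(b-a)/2 < |z| ≤ (a+b)/2`, `|z| > (a+b)/2` (`tr0 0 c z = max 0 (1 - |z|/c)`; for `a = b` the second
term is `0 * _`). -/
def PBX_stmt : Prop := ∀ a b y y' : ℝ, 0 < a → a ≤ b →
  Integrable (fun v : ℝ => bxw a (y - v) * bxw b (y' - v)) ∧
  ∫ v : ℝ, bxw a (y - v) * bxw b (y' - v) =
    (a + b) / 2 * tr0 0 ((a + b) / 2) (y - y') - (b - a) / 2 * tr0 0 ((b - a) / 2) (y - y')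

/-- **PTI** (medium).  Fourier inversion for the tent, explicit transform.  Proof.  (1) even function, `Th c t = 2 ∫_0^c (1 - x/c) cos (t x) dx`, primitive
`(1 - x/c) sin(tx)/t - cos(tx)/(c t²)`.  (2) `SK.THB` (proved): `‖Th c t‖ ≤ min c (4/(c t²))`, continuous.  (3) `SK.TRC` (proved, `v = 0`): the
tent convolved with the Gaussian is `(1/2π) ∫ exp(-s²t²/2) Th c t e^(itx) dt` and differs from the tent by `≤ s/c`; `s → 0` with dominated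
convergence (or Mathlib's Fourier inversion). -/
def PTI_stmt : Prop := ∀ c : ℝ, 0 < c → (∀ t : ℝ, t ≠ 0 → Th c t = ((2 * (1 - Real.cos (c * t)) / (c * t ^ 2) : ℝ) : ℂ)) ∧
  Integrable (Th c) ∧ ∀ y : ℝ, ((tr0 0 c y : ℝ) : ℂ) =
    1 / (2 * Real.pi) * ∫ t : ℝ, Th c t * Complex.exp (((t * y : ℝ) : ℂ) * Complex.I)

/-- **PFB** (medium, long).  From PBX, PTI.  Parseval.  Proof.  Open the square: `∑_{w,w'} f_w conj f_w' C(y_w - y_w')`, `y = log x`, with `C` = correlation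
of `kbw` = combination of four terms of PBX (`(δ,δ)`, `(δ,δ')` twice with factor `-δ/δ'`, `(δ',δ')` with `(δ/δ')²`).  PTI: `C(z) = (1/2π) ∫ kh(t) e^(itz) dt`
with, for `t ≠ 0`, `kh(t) = (2 sin(δt/2)/t - (δ/δ') 2 sin(δ't/2)/t)²` (`a b`-term: `2 (cos((b-a)t/2) - cos((a+b)t/2))/t² = 4 sin(at/2) sin(bt/2)/t²`).
So the left side is `(1/2π) ∫ ‖F(t)‖² kh(t) dt`.  Bounds: `kh/(2π) ≤ δ²` (`|2 sin(at/2)/t| ≤ a`, so `kh ≤ 4δ²`), `≤ 4/t²` (both terms `≤ 2/|t|` as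
`δ ≤ δ'`), `≤ δ² (δ't)⁴` (`|2 sin(at/2)/t - a| ≤ a (at)²/24`, so `kh ≤ δ² (δ't)⁴/144`).  Integrability: the left side is a bounded function of
compact support, the right side is `≤ (∑ ‖f‖)² min(δ², 4/t²)`, continuous up to `t = 0`. -/
def PFB_stmt : Prop := ∀ δ δ' : ℝ, 0 < δ → δ ≤ δ' → δ' ≤ 1 → ∀ (ι : Type) (S : Finset ι) (x : ι → ℕ) (f : ι → ℂ), (∀ w ∈ S, 1 ≤ x w) →
  Integrable (fun v : ℝ => ‖∑ w ∈ S, f w * ((kbw δ δ' (Real.log (x w : ℝ) - v) : ℝ) : ℂ)‖ ^ 2) ∧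
  Integrable (fun t : ℝ => ‖∑ w ∈ S, f w * nit t (x w : ℝ)‖ ^ 2 * wkt δ δ' t) ∧
  ∫ v : ℝ, ‖∑ w ∈ S, f w * ((kbw δ δ' (Real.log (x w : ℝ) - v) : ℝ) : ℂ)‖ ^ 2 ≤
    ∫ t : ℝ, ‖∑ w ∈ S, f w * nit t (x w : ℝ)‖ ^ 2 * wkt δ δ' t

/-! ## Part B: one block -/

/-- **PMV** (medium).  `SK.MVP` with coefficients bounded by powers of `tau`: copy of Pool/Agent/helper37/SK/MVP.lean (uses `SK.TAM`, `CH.MVT`).
Proof.  The product over `I` is `∑_n c n nit t n`, `M ≤ n < 2^R M` (`M = ∏_I M i`), `|c n| ≤ ∑ ∏ L^c tau(m_i)^c ≤ L^(cR) tau(n)^(cR) tau(n)^R`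
(`m_i ∣ n`); blocks `[2^j M, 2^(j+1) M)`, Cauchy-Schwarz, MVT for each and TAM with `k = 2R(c+1)`. -/
def PMV_stmt : Prop := ∀ R c : ℕ, ∃ K N₀ : ℕ, ∀ N : ℕ, N₀ ≤ N → ∀ (M : Fin R → ℕ) (a : Fin R → ℕ → ℂ),
  (∀ i, 1 ≤ M i) → ∏ i, M i ≤ 64 * N ^ 3 → (∀ i m, M i ≤ m → m < 2 * M i → ‖a i m‖ ≤ Real.log N ^ c * tau m ^ c) →
  ∀ (I : Finset (Fin R)) (T : ℝ), 1 ≤ T →
  ∫ t in (-T)..T, ‖∏ i ∈ I, DPb (M i) (a i) t‖ ^ 2 ≤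
    (T + ((∏ i ∈ I, M i : ℕ) : ℝ)) * ((∏ i ∈ I, M i : ℕ) : ℝ) * Real.log N ^ K

/-- **PIN** (medium).  The three ranges.  Proof.  `δ' = 1/L^B`, `B₀ = c + 2B₁ + A + 1`.  Integrable: `G ≤ N⁶ L^c`, `wkt ≤ min(δ², 4/t²)`.  (i) `|t| ≤ L^B₁`:
`wkt ≤ δ² (δ't)⁴ ≤ δ² L^(4B₁-4B)`: `≤ 2 L^B₁ N⁶ L^c δ² L^(4B₁-4B) ≤ δ² N⁶/(4 L^A)`.  (ii) `T2s`: `wkt ≤ δ²`, hypothesis: `≤ δ² N⁶/L^(A+1)`.  (iii) `T = 2^j N^(2-4ε) ≤ N⁶`,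
`T ≤ |t| ≤ 2T`: `≤ (4/T²)(2T + N³) N³ L^K`; sum over `j` (geometric): `≤ 16 (N³/N^(2-4ε) + N⁶/N^(4-8ε)) L^K ≤ 32 N^(2+8ε) L^K`, while `δ² N⁶ ≥ N^(2+16ε)`.
(iv) `|t| ≥ N⁶`: `≤ N⁶ L^c 8/N⁶`. -/
def PIN_stmt : Prop := ∀ ε : ℝ, 0 < ε → ε ≤ 1 / 10 → ∀ A c K B₁ : ℕ, ∃ B₀ : ℕ, ∀ B : ℕ, B₀ ≤ B → ∃ N₀ : ℕ, ∀ N : ℕ, N₀ ≤ N →
  ∀ δ : ℝ, (N : ℝ) ^ (-2 + 8 * ε) ≤ δ → δ ≤ 1 / Real.log N ^ B → ∀ G : ℝ → ℝ, Continuous G → (∀ t, 0 ≤ G t) →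
  (∀ t, G t ≤ (N : ℝ) ^ 6 * Real.log N ^ c) →
  (∀ T : ℝ, 1 ≤ T → ∫ t in (-T)..T, G t ≤ (T + (N : ℝ) ^ 3) * (N : ℝ) ^ 3 * Real.log N ^ K) →
  ∫ t in T2s ε B₁ N, G t ≤ (N : ℝ) ^ 6 / Real.log N ^ (A + 1) →
  Integrable (fun t : ℝ => G t * wkt δ (1 / Real.log N ^ B) t) ∧
  ∫ t : ℝ, G t * wkt δ (1 / Real.log N ^ B) t ≤ δ ^ 2 * (N : ℝ) ^ 6 / Real.log N ^ A

/-- **PB2** (short, medium).  A block of medium length.  Proof.  `M' = ∏_{i ≠ c} M i ≥ N³/(2^(R+4) N^(1+2ε)) ≥ N^(2-4ε) =: T ≥ 1`; on `T2s` pointwise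
`‖∏‖² ≤ (M c/L^A₁)² ‖∏_{i≠c}‖²`, `T2s ⊆ [-T, T]`: `≤ (M c)² L^(-2A₁) (T + M') M' L^K ≤ 2 (M c M')² L^(K-2A₁) ≤ 128 N⁶ L^(K-2A₁)`, `A₁ = K + A + 1`. -/
def PB2_stmt : Prop := ∀ ε : ℝ, 0 < ε → ε ≤ 1 / 10 → ∀ R K A : ℕ, ∃ A₁ N₀ : ℕ, ∀ N : ℕ, N₀ ≤ N → ∀ (B₁ : ℕ) (M : Fin R → ℕ)
  (P : Fin R → ℝ → ℂ) (c : Fin R), (∀ i, Continuous (P i)) → (∀ i, 1 ≤ M i) → N ^ 3 ≤ 2 ^ (R + 4) * ∏ i, M i → ∏ i, M i ≤ 8 * N ^ 3 →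
  (M c : ℝ) ≤ (N : ℝ) ^ (1 + 2 * ε) → (∀ t ∈ T2s ε B₁ N, ‖P c t‖ ≤ M c / Real.log N ^ A₁) →
  (∀ T : ℝ, 1 ≤ T → ∫ t in (-T)..T, ‖∏ i ∈ univ.erase c, P i t‖ ^ 2 ≤
    (T + ((∏ i ∈ univ.erase c, M i : ℕ) : ℝ)) * ((∏ i ∈ univ.erase c, M i : ℕ) : ℝ) * Real.log N ^ K) →
  ∫ t in T2s ε B₁ N, ‖∏ i, P i t‖ ^ 2 ≤ (N : ℝ) ^ 6 / Real.log N ^ A

/-- **PB3** (medium).  A long smooth polynomial.  Proof.  `‖p‖² ≤ 2 L^(2c) (m²/t² + |t|)`.  First part: `T = 2^j L^B₁`, `T ≤ |t| ≤ 2T`, at most `5L` values of `j`: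
`(m²/T²)(2T + n) n L^K ≤ (mn)² L^K (2/T + 1/T²)` (`m² n ≤ (mn)²`), `(mn)² ≤ 4096 N⁶`: sum `≤ C N⁶ L^(K-B₁)`.  Second part: `|t| ≤ T = N^(2-4ε)`:
`T (T + n) n L^K` with `n ≤ 64 N³/m ≤ 64 N^(8/5)`: `≤ 128 N^(4+8/5) L^K + ..`, a power of `N` below `N⁶`. -/
def PB3_stmt : Prop := ∀ ε : ℝ, 0 < ε → ε ≤ 1 / 10 → ∀ K c A : ℕ, ∃ B₂ : ℕ, ∀ B₁ : ℕ, B₂ ≤ B₁ → ∃ N₀ : ℕ, ∀ N : ℕ, N₀ ≤ N →
  ∀ (m n : ℕ) (p Q : ℝ → ℂ), Continuous p → Continuous Q → 1 ≤ m → 1 ≤ n → m * n ≤ 64 * N ^ 3 → (N : ℝ) ^ (14 / 10 : ℝ) ≤ m →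
  (∀ t : ℝ, 1 ≤ |t| → ‖p t‖ ≤ Real.log N ^ c * (m / |t| + √|t|)) →
  (∀ T : ℝ, 1 ≤ T → ∫ t in (-T)..T, ‖Q t‖ ^ 2 ≤ (T + n) * n * Real.log N ^ K) →
  ∫ t in T2s ε B₁ N, ‖p t * Q t‖ ^ 2 ≤ (N : ℝ) ^ 6 / Real.log N ^ A

/-- **PBK** (medium, long).  From PMV (or `SK.MVP`), PIN, PB2, PB3, `SK.SPK`, `SK.VDK`; compare Pool/Agent/helper2/SK/BLK.lean.  The blocks of the
bounded terms of HB7 (`r = 0`).  Proof.  `R = 2i ≤ 14`, `M k = 2^(e k)`.  `G` = square of the norm of the product.  If one of the polynomials vanishes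
identically everything is `0`.  So `M k ≤ zN N` (Moebius variables) resp. `≤ XPc ε N`.  Coefficients `≤ log N ^ 2`; trivial bound `G ≤ N⁶ L^c`; PMV for the mean
values (`I = univ`, `univ.erase _`).  PIN with the bound on `T2s`: (1) some `k` with `N^(1/1000) ≤ M k ≤ N^(1+2ε)`: PB2 and SPK (`η = 1/1000`; `T2s ⊆ {|t| ≤ N²}`;
`B₁` larger than that of SPK for `A₁`).  (2) otherwise let `Z` = the `k` with `M k > N^(1+2ε)`; the others have product `≤ N^(14/1000)`; `#Z ≤ 2` (else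
the product `> 8 N³`); factors in `Z` are `sml` (`N^(1+2ε) > zN N`), `≤ N^(2-2ε)`; `#Z ≤ 1` contradicts `∏ M ≥ N³/2^18`; so `#Z = 2` and the larger one has
`M ≥ (N^(3-14/1000)/2^18)^(1/2) ≥ N^(14/10)`: PB3 with VDK (`q ≤ L^Bq`), `n` = product of the others. -/
def PBK_stmt : Prop := ∀ ε : ℝ, 0 < ε → ε ≤ 1 / 10 → ∀ A Bq : ℕ, ∃ B₀ : ℕ, ∀ B : ℕ, B₀ ≤ B → ∃ N₀ : ℕ, ∀ N : ℕ, N₀ ≤ N →
  ∀ δ : ℝ, (N : ℝ) ^ (-2 + 8 * ε) ≤ δ → δ ≤ 1 / Real.log N ^ B → ∀ q : ℕ, 1 ≤ q → (q : ℝ) ≤ Real.log N ^ Bq →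
  ∀ χ : DirichletCharacter ℂ q, ∀ a b : Fin 0 → ℝ, ∀ i ∈ Icc 1 7, ∀ e : Fin (0 + 2 * i) → ℕ,
  N ^ 3 ≤ 2 ^ (2 * i + 4) * ∏ k, 2 ^ e k → ∏ k, 2 ^ e k ≤ 8 * N ^ 3 →
  ∫ t : ℝ, ‖∏ k, DPb (2 ^ e k) (fun m => ((uu N (zN N) (XPc ε N) a b i k m : ℝ) : ℂ) * χ m) t‖ ^ 2 * wkt δ (1 / Real.log N ^ B) t ≤
    δ ^ 2 * (N : ℝ) ^ 6 / Real.log N ^ A

/-- **PB1** (medium).  From PMV, PIN, PB3, `SK.VDK`, `SK.TAM`.  Type I blocks.  Proof.  If `2^(f+1) ≤ XPc ε N` the second polynomial vanishes.  Otherwise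
`2^f ≥ N^(2-2ε)/4 ≥ N^(14/10)`.  On `[2^f, 2^(f+1))`: `bgf X h = sml (2^(f+1)) h - sml X h`, VDK twice: `≤ L^(Bq+3) (2^f/|t| + √|t|)`.  PB3 with `p` = second,
`Q` = first polynomial, `m = 2^f`, `n = 2^g`; mean values of `Q` and of the product from PMV with `R = 2` (`‖bgf‖ ≤ 5L ≤ L²`).  Trivial bound:
TAM: `∑ |E| ≤ L^K 2^(g+1) (6L)^(2^K)`. -/
def PB1_stmt : Prop := ∀ ε : ℝ, 0 < ε → ε ≤ 1 / 10 → ∀ A Bq K : ℕ, ∃ B₀ : ℕ, ∀ B : ℕ, B₀ ≤ B → ∃ N₀ : ℕ, ∀ N : ℕ, N₀ ≤ N →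
  ∀ δ : ℝ, (N : ℝ) ^ (-2 + 8 * ε) ≤ δ → δ ≤ 1 / Real.log N ^ B → ∀ q : ℕ, 1 ≤ q → (q : ℝ) ≤ Real.log N ^ Bq →
  ∀ χ : DirichletCharacter ℂ q, ∀ h ≤ 1, ∀ E : ArithmeticFunction ℝ,
  (∀ d : ℕ, 1 ≤ d → d ≤ 64 * N ^ 3 → |E d| ≤ Real.log N ^ K * tau d ^ K) → ∀ f g : ℕ,
  N ^ 3 ≤ 32 * 2 ^ (f + g) → 2 ^ (f + g) ≤ 8 * N ^ 3 →
  ∫ t : ℝ, ‖DPb (2 ^ g) (fun d => ((E d : ℝ) : ℂ) * χ d) t * DPb (2 ^ f) (fun n => ((bgf (XPc ε N) h n : ℝ) : ℂ) * χ n) t‖ ^ 2 *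
    wkt δ (1 / Real.log N ^ B) t ≤ δ ^ 2 * (N : ℝ) ^ 6 / Real.log N ^ A

/-! ## Part C: the sums over the windows -/

/-- **PDB** (medium, long).  From PFB, PBK, `SK.PRD`; compare Pool/Agent/helper24/SK/SML.lean.  Proof.  `R = 2i`, `N² ≤ 2^K ≤ 2N²`; all `uu` vanish from `2^K` on.
For `|v - 3 log N| ≤ 1` the function `kbw (log m - v)` vanishes outside `(N³/8, 8N³)` (`|log m - v| > 1/2 ≥ δ'/2`), so the sum over `m ≤ 64N³` is the sum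
over `m ≤ 2^(KR)`; PRD with `G m = χ m kbw`.  A block with `∏ 2^(e k) > 8N³` or `2^(R+4) ∏ 2^(e k) < N³` contributes `0` (its products lie in
`[∏ 2^(e k), 2^R ∏ 2^(e k))`).  The others, at most `K^R ≤ L^30`: Cauchy-Schwarz, the integral over the `v` is at most the integral over `ℝ`, PFB with `S` = the
tuples of the block, `x = ∏ m_k`, `f = ∏ uu(m_k) χ(m_k)`; `∑ f nit t x = ∏ DPb` (`Finset.prod_univ_sum`), PBK with `A + 61`. -/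
def PDB_stmt : Prop := ∀ ε : ℝ, 0 < ε → ε ≤ 1 / 10 → ∀ A Bq : ℕ, ∃ B₀ : ℕ, ∀ B : ℕ, B₀ ≤ B → ∃ N₀ : ℕ, ∀ N : ℕ, N₀ ≤ N →
  ∀ δ : ℝ, (N : ℝ) ^ (-2 + 8 * ε) ≤ δ → δ ≤ 1 / Real.log N ^ B → ∀ q : ℕ, 1 ≤ q → (q : ℝ) ≤ Real.log N ^ Bq →
  ∀ χ : DirichletCharacter ℂ q, ∀ a b : Fin 0 → ℝ, ∀ i ∈ Icc 1 7,
  ∫ v in (3 * Real.log N - 1)..(3 * Real.log N + 1), ‖∑ m ∈ Ioc 0 (64 * N ^ 3),
    (((∏ k, uu N (zN N) (XPc ε N) a b i k) m : ℝ) : ℂ) * χ m * ((kbw δ (1 / Real.log N ^ B) (Real.log m - v) : ℝ) : ℂ)‖ ^ 2 ≤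
    δ ^ 2 * (N : ℝ) ^ 6 / Real.log N ^ A

/-- **PDI** (medium).  From PFB, PB1.  Type I.  Proof.  `(E * bgf X h) m = ∑_{d n = m} E d bgf n`; `kbw` vanishes outside `(N³/8, 8N³)` as in PDB; sort the pairs
`(d, n)`, `d n ≤ 64N³`, by `2^g ≤ d < 2^(g+1)`, `2^f ≤ n < 2^(f+1)` (`Nat.log 2`; for `f, g` with `2^(f+g) ≤ 8N³` all pairs of the block have `d n < 32N³`; the
blocks with `2^(f+g) > 8N³` or `32 · 2^(f+g) < N³` contribute `0`).  At most `(6L)²` blocks: Cauchy-Schwarz, PFB with `S` = pairs, `x = d n`; `F(t)` = product of the two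
polynomials; PB1 with `A + 6`. -/
def PDI_stmt : Prop := ∀ ε : ℝ, 0 < ε → ε ≤ 1 / 10 → ∀ A Bq K : ℕ, ∃ B₀ : ℕ, ∀ B : ℕ, B₀ ≤ B → ∃ N₀ : ℕ, ∀ N : ℕ, N₀ ≤ N →
  ∀ δ : ℝ, (N : ℝ) ^ (-2 + 8 * ε) ≤ δ → δ ≤ 1 / Real.log N ^ B → ∀ q : ℕ, 1 ≤ q → (q : ℝ) ≤ Real.log N ^ Bq →
  ∀ χ : DirichletCharacter ℂ q, ∀ h ≤ 1, ∀ E : ArithmeticFunction ℝ,
  (∀ d : ℕ, 1 ≤ d → d ≤ 64 * N ^ 3 → |E d| ≤ Real.log N ^ K * tau d ^ K) →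
  ∫ v in (3 * Real.log N - 1)..(3 * Real.log N + 1), ‖∑ m ∈ Ioc 0 (64 * N ^ 3),
    (((E * bgf (XPc ε N) h) m : ℝ) : ℂ) * χ m * ((kbw δ (1 / Real.log N ^ B) (Real.log m - v) : ℝ) : ℂ)‖ ^ 2 ≤
    δ ^ 2 * (N : ℝ) ^ 6 / Real.log N ^ A

/-- **PCO** (medium).  From PDB, PDI, `SK.DEC` (`r = 0`, `z = zN N`, `X = XPc ε N`; `64 N³ ≤ zN^7`), `TL N a b m = Λ(m)` for `r = 0`
(`Pool.Agent.SK.TL_zero` in helper24/SK/All.lean, 4 lines).  Compare SK/SPT.lean.  Proof.  `Λ = ∑_{i ≤ 7} ± C(7,i) (..) + E₀ * bgf 0 + E₁ * bgf 1` on `m ≤ 64N³`,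
`K (1 + log d) ≤ L^(K+2)`; nine terms, Cauchy-Schwarz, `C(7,i)² ≤ 1225`, the row statements with `A + 5`. -/
def PCO_stmt : Prop := ∀ ε : ℝ, 0 < ε → ε ≤ 1 / 10 → ∀ A Bq : ℕ, ∃ B₀ : ℕ, ∀ B : ℕ, B₀ ≤ B → ∃ N₀ : ℕ, ∀ N : ℕ, N₀ ≤ N →
  ∀ δ : ℝ, (N : ℝ) ^ (-2 + 8 * ε) ≤ δ → δ ≤ 1 / Real.log N ^ B → ∀ q : ℕ, 1 ≤ q → (q : ℝ) ≤ Real.log N ^ Bq →
  ∀ χ : DirichletCharacter ℂ q,
  ∫ v in (3 * Real.log N - 1)..(3 * Real.log N + 1), ‖∑ m ∈ Ioc 0 (64 * N ^ 3),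
    (vonMangoldt m : ℂ) * χ m * ((kbw δ (1 / Real.log N ^ B) (Real.log m - v) : ℝ) : ℂ)‖ ^ 2 ≤
    δ ^ 2 * (N : ℝ) ^ 6 / Real.log N ^ A

/-- **PWI** (short, medium).  `SK.PSR` (proved).  Wide windows.  Proof.  The `m ≥ 1` with `|log m - v| ≤ δ/2` are those of
`Ioc (⌈e^(v-δ/2)⌉₊ - 1) ⌊e^(v+δ/2)⌋₊` (inside `Ioc 0 (64N³)`): difference of two partial sums, each `≤ 64N³/L^(A+7)` (PSR with `κ = 3`, `U = 64N³`, and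
`64 ≤ L^6`); for `q = 1` every `ψ` is `1` and `ψ m = 1`. -/
def PWI_stmt : Prop := ∀ A Bq : ℕ, ∃ N₀ : ℕ, ∀ N : ℕ, N₀ ≤ N → ∀ v δ : ℝ, |v - 3 * Real.log N| ≤ 1 → 0 < δ → δ ≤ 1 →
  ∀ q : ℕ, 1 ≤ q → (q : ℝ) ≤ Real.log N ^ Bq → ∀ ψ : DirichletCharacter ℂ q, (q = 1 ∨ ψ ≠ 1) →
  ‖∑ m ∈ Ioc 0 (64 * N ^ 3), hL q ψ m * ((bxw δ (Real.log m - v) : ℝ) : ℂ)‖ ≤ (N : ℝ) ^ 3 / Real.log N ^ A

/-- **PCI** (short, medium).  Integers in windows.  Proof.  `#{m ≥ 1 : |log m - v| ≤ c/2} = e^v (e^(c/2) - e^(-c/2)) + θ`, `|θ| ≤ 1`, all these `m` are `≤ 64N³`;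
`|e^(c/2) - e^(-c/2) - c| ≤ c³/20` for `0 < c ≤ 1`. -/
def PCI_stmt : Prop := ∃ N₀ : ℕ, ∀ N : ℕ, N₀ ≤ N → ∀ v δ δ' : ℝ, |v - 3 * Real.log N| ≤ 1 → 0 < δ → δ ≤ δ' → δ' ≤ 1 →
  |∑ m ∈ Ioc (0 : ℕ) (64 * N ^ 3), kbw δ δ' (Real.log (m : ℝ) - v)| ≤ Real.exp v * δ * δ' ^ 2 + 2

/-- **PMS** (medium).  From PCO, PWI, PCI.  Mean square over the windows.  Proof.  `bxw δ = kbw δ δ' + (δ/δ') bxw δ'`, `δ' = 1/L^B`, `B = max(B₀(A+3), A+3)`.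
`∑ hL kbw` = PCO part minus (`q = 1`) the PCI part: `(e² N³ δ L^(-2B) + 2)² ≤ 200 (N³ δ)² L^(-4B) + 8`, `8 ≤ N² ≤ (δ N³)²/L^(..)`; wide: `(δ L^B N³/L^(A+B+3))²` (PWI with
`A + B + 3`).  `|a+b+c|² ≤ 3(..)`, length 2. -/
def PMS_stmt : Prop := ∀ ε : ℝ, 0 < ε → ε ≤ 1 / 10 → ∀ A Bq : ℕ, ∃ B N₀ : ℕ, ∀ N : ℕ, N₀ ≤ N →
  ∀ δ : ℝ, (N : ℝ) ^ (-2 + 8 * ε) ≤ δ → δ ≤ 1 / Real.log N ^ B → ∀ q : ℕ, 1 ≤ q → (q : ℝ) ≤ Real.log N ^ Bq →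
  ∀ ψ : DirichletCharacter ℂ q, (q = 1 ∨ ψ ≠ 1) →
  ∫ v in (3 * Real.log N - 1)..(3 * Real.log N + 1), ‖∑ m ∈ Ioc 0 (64 * N ^ 3), hL q ψ m * ((bxw δ (Real.log m - v) : ℝ) : ℂ)‖ ^ 2 ≤
    δ ^ 2 * (N : ℝ) ^ 6 / Real.log N ^ A

/-- **PCE** (medium, long).  From PMS.  Cells, `K` large.  Proof.  `N = ⌈x^(1/3)⌉₊`, `x ≤ N³ ≤ 2x`, `N ≤ x`, `log x ≤ 3L`, `L ≤ log x`; `δ = log 2/K ≤ 1/L^B` as `K ≥ (log x)^B`,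
`δ ≥ N^(-2+8ε)` with `ε = min(η/4, 1/10)` (`x^(-2/3+η) ≥ N^(-2+3η)` if `η < 2/3`; `η ≥ 2/3`: `K ≤ 1`, impossible for large `x` if `B ≥ 1`; take `B ≥ 1`).  For an
integer `l`: `l ∈ cl x K i` iff `a_i < log l ≤ a_(i+1)`, `a_i = log x + i δ`.  `S v = ∑ hL bxw δ (log m - v)`, `v_i = a_i + δ/2`, `ρ = δ/L^c`, `c = A + 2`: for
`|v - v_i| ≤ ρ` the cell sum differs from `S v` by terms with `|log m - a_i| ≤ ρ` or `|log m - a_(i+1)| ≤ ρ`: at most `2(6xρ+1)` integers, each term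
`≤ 2 log x` in norm; `xρ ≥ 1`.  So `‖cell_i‖² ≤ (1/ρ) ∫_{|v-v_i| ≤ ρ} ‖S v‖² dv + 2 (56 x ρ log x)²` (from `‖cell‖² ≤ 2‖S v‖² + 2 (..)²`, mean over the interval of length `2ρ`);
the intervals are disjoint and inside `[3L-1, 3L+1]`: sum `≤ (1/ρ) δ² N⁶/L^(A₂) + K (..)`, `A₂ = c + A + 3`; `δ K = log 2`. -/
def PCE_stmt : Prop := ∀ η : ℝ, 0 < η → ∀ A Bq : ℕ, ∃ B x₀ : ℕ, ∀ x : ℕ, x₀ ≤ x → ∀ K : ℕ, Real.log x ^ B ≤ K →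
  (K : ℝ) ≤ (x : ℝ) ^ (2 / 3 - η) → ∀ q : ℕ, 1 ≤ q → (q : ℝ) ≤ Real.log x ^ Bq → ∀ ψ : DirichletCharacter ℂ q, (q = 1 ∨ ψ ≠ 1) →
  ∑ i ∈ range K, ‖∑ l ∈ cl x K i, ((vonMangoldt l.toNat : ℂ) - (if q = 1 then 1 else 0)) * ψ (l : ZMod q)‖ ^ 2 ≤
    (x : ℝ) ^ 2 / (K * Real.log x ^ A)

/-- **PSK** (short, medium).  `SK.PSR` (proved).  Cells, `K` small.  Proof.  `N = ⌈x^(1/3)⌉₊` as in PCE.  The cell sum is a difference of two partial sums of `hL` at `gp x K i`,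
`gp x K (i+1) ≤ 2x ≤ 64N³`: `≤ 128N³/L^(A')` (PSR, `κ = 3`, `U = 64N³`); sum of the squares `≤ K (256 x)²/L^(2A') ≤ x²/(K (log x)^A)` for `A' = A + B + 9`. -/
def PSK_stmt : Prop := ∀ A Bq B : ℕ, ∃ x₀ : ℕ, ∀ x : ℕ, x₀ ≤ x → ∀ K : ℕ, 1 ≤ K → (K : ℝ) ≤ Real.log x ^ B →
  ∀ q : ℕ, 1 ≤ q → (q : ℝ) ≤ Real.log x ^ Bq → ∀ ψ : DirichletCharacter ℂ q, (q = 1 ∨ ψ ≠ 1) →
  ∑ i ∈ range K, ‖∑ l ∈ cl x K i, ((vonMangoldt l.toNat : ℂ) - (if q = 1 then 1 else 0)) * ψ (l : ZMod q)‖ ^ 2 ≤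
    (x : ℝ) ^ 2 / (K * Real.log x ^ A)

/-! `PSI_stmt` (the interface, in Pool/Agent/helper95/FJ/SpecE.lean) follows from PCE and PSK: `ψ` primitive modulo `q ≥ 2` is not `1`. -/

end Pool.Agent.FJ
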